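import Pool.Agent.Helper54.DI.StmtsC

namespace Pool.Agent.Helper54.DI

open Finset Filter Topology

theorem st_GEOP (hLOCP : ST_LOCP) (hDIR : ST_DIR) : ST_GEOP := by
  intro k A hAC hSL
  obtain ⟨w, J, l, F, hl, hF, hFw, hdep, hid, hna, hTF⟩ := hLOCP k A hAC hSL
  obtain ⟨δ, hδ, hball⟩ := Metric.eventually_nhds_iff.1 hTF
  have ha : ∀ i, ∃ q : ℚ, w i - δ < q ∧ (q : ℝ) < w i := fun i => exists_rat_btwn (by linarith)
  have hb : ∀ i, ∃ q : ℚ, w i < q ∧ (q : ℝ) < w i + δ := fun i => exists_rat_btwn (by linarith)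
  choose a ha1 ha2 using ha
  choose b hb1 hb2 using hb
  have hboxw : ∀ z, Bx a b z → (z ∈ A ↔ F z = z) := by
    intro z hz
    apply hball
    rw [dist_pi_lt_iff hδ]
    intro j
    rw [Real.dist_eq, abs_lt]
    constructor
    · linarith [(hz j).1, ha1 j]
    · linarith [(hz j).2, hb2 j]
  have hFF : ∀ x, F (F x) = F x := fun x => hdep _ _ fun j hj => hid x j hj
  have hU0 : ∀ᶠ x in 𝓝 w, ∀ i, (a i : ℝ) < F x i ∧ F x i < b i := by
    rw [eventually_all]
    intro i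
    have hci : ContinuousAt (fun x => F x i) w := (continuousAt_pi.1 hF.continuousAt) i
    have h1 : ∀ᶠ x in 𝓝 w, (a i : ℝ) < F x i :=
      hci.eventually (lt_mem_nhds (by show (a i : ℝ) < F w i; rw [hFw]; exact ha2 i))
    have h2 : ∀ᶠ x in 𝓝 w, F x i < b i :=
      hci.eventually (gt_mem_nhds (by show F w i < (b i : ℝ); rw [hFw]; exact hb1 i))
    exact h1.and h2
  obtain ⟨U, hUsub, hUo, hUw⟩ := mem_nhds_iff.1 hU0
  have hG : ContDiffAt ℝ 3 (fun x => F x l) w := contDiffAt_pi.1 hF l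
  obtain ⟨y, u, hyU, hf, hf2⟩ := hDIR k (fun x => F x l) w hG hna U (hUo.mem_nhds hUw)
  set g : ℝ → Fin k → ℝ := fun t i => (y i : ℝ) + t * u i with hg
  have hgc : Continuous g := by
    rw [hg]
    exact continuous_pi fun i => by fun_prop
  have hg0 : g 0 = fun i => (y i : ℝ) := by
    funext i; simp [hg]
  have hUr : ∀ᶠ t in 𝓝 (0 : ℝ), g t ∈ U := by
    apply hgc.continuousAt.eventually
    rw [hg0]
    exact hUo.mem_nhds hyU
  obtain ⟨r, hr, hUr2⟩ := Metric.eventually_nhds_iff.1 hUr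
  obtain ⟨ρ, hρ0, hρr⟩ := exists_rat_btwn (show (0 : ℝ) < r from hr)
  have hρ0' : 0 < ρ := by exact_mod_cast hρ0
  refine ⟨a, b, J, l, y, u, ρ, fun t : ℝ => F (g t) l, hρ0', hf, hf2, ?_⟩
  intro x yy hx
  constructor
  · rintro ⟨P, hPA, hPb, hPJ, hPl⟩
    have hFP : F P = P := (hboxw P hPb).1 hPA
    have : F P = F (g x) := hdep _ _ fun j hj => hPJ j hj
    rw [← hPl]
    show P l = F (g x) l
    rw [← this, hFP]
  · rintro rfl
    have hgU : g x ∈ U := by
      apply hUr2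
      rw [Real.dist_eq, sub_zero]
      exact lt_of_le_of_lt hx hρr
    have hb' : Bx a b (F (g x)) := fun i => ⟨(hUsub hgU i).1.le, (hUsub hgU i).2.le⟩
    refine ⟨F (g x), (hboxw _ hb').2 (hFF _), hb', ?_, rfl⟩
    intro j hj
    rw [hid _ j hj]

end Pool.Agent.Helper54.DI
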