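import Pool.Agent.Helper54.DI.StmtsA

namespace Pool.Agent.Helper54.DI

open Finset Filter Topology

theorem loc_front {d : ℕ} {A : Set (Fin d → ℝ)} {x : Fin d → ℝ}
    (h : ∀ᶠ y in 𝓝 x, (y ∈ A ↔ x ∈ A)) : x ∉ frontier A := by
  intro hx
  by_cases hxA : x ∈ A
  · have h1 : A ∈ 𝓝 x := by
      filter_upwards [h] with y hy
      exact hy.2 hxA
    have h2 : x ∈ interior A := mem_interior_iff_mem_nhds.2 h1
    exact hx.2 h2
  · have h1 : Aᶜ ∈ 𝓝 x := by
      filter_upwards [h] with y hy
      exact fun hyA => hxA (hy.1 hyA)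
    have h2 : x ∈ closure A := hx.1
    rw [mem_closure_iff_nhds] at h2
    obtain ⟨y, hy1, hy2⟩ := h2 _ h1
    exact hy1 hy2

theorem loc_cont_aeval {d : ℕ} (g : MvPolynomial (Fin d) KK) :
    Continuous fun x : Fin d → ℝ => MvPolynomial.aeval x g := by
  induction g using MvPolynomial.induction_on with
  | C a =>
    simp only [MvPolynomial.aeval_C]
    exact continuous_const
  | add p q hp hq =>
    simp only [map_add]
    exact hp.add hq
  | mul_X p i hp =>
    simp only [map_mul, MvPolynomial.aeval_X]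
    exact hp.mul (continuous_apply i)

theorem loc_cont_kev {d : ℕ} (f : KForm d) : Continuous fun x : Fin d → ℝ => kev f x := by
  unfold kev
  exact (continuous_finset_sum _ fun i _ => continuous_const.mul (continuous_apply i)).add
    continuous_const

theorem loc_sign {d : ℕ} (g : MvPolynomial (Fin d) KK) (x : Fin d → ℝ)
    (hg : MvPolynomial.aeval x g ≠ 0) :
    ∀ᶠ y in 𝓝 x, SignType.sign (MvPolynomial.aeval y g) =
      SignType.sign (MvPolynomial.aeval x g) := by
  have hc := (loc_cont_aeval g).continuousAt (x := x)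
  rcases lt_or_gt_of_ne hg with h | h
  · have := hc.eventually_lt_const h
    filter_upwards [this] with y hy
    rw [sign_neg hy, sign_neg h]
  · have := hc.eventually_const_lt h
    filter_upwards [this] with y hy
    rw [sign_pos hy, sign_pos h]

theorem loc_forall_list {α : Type*} {X : Type*} {L : Filter X} (l : List α) (p : α → X → Prop)
    (h : ∀ a ∈ l, ∀ᶠ x in L, p a x) : ∀ᶠ x in L, ∀ a ∈ l, p a x := by
  induction l with
  | nil => simp
  | cons a l ih =>
    have h1 := h a (List.mem_cons_self ..)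
    have h2 := ih fun b hb => h b (List.mem_cons_of_mem _ hb)
    filter_upwards [h1, h2] with x hx1 hx2 b hb
    rcases List.mem_cons.1 hb with rfl | hb
    · exact hx1
    · exact hx2 b hb

theorem loc_list_prod_notin {R : Type*} [CommRing R] (P : Ideal R) [hP : P.IsPrime] (l : List R)
    (h : ∀ a ∈ l, a ∉ P) : l.prod ∉ P := by
  induction l with
  | nil =>
    rw [List.prod_nil]
    intro h1
    exact hP.ne_top ((Ideal.eq_top_iff_one P).2 h1)
  | cons a l ih =>
    rw [List.prod_cons]
    intro h1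
    rcases hP.mem_or_mem h1 with h2 | h2
    · exact h a (List.mem_cons_self ..) h2
    · exact ih (fun b hb => h b (List.mem_cons_of_mem _ hb)) h2

theorem loc_prod_ne {R S : Type*} [CommRing R] [CommRing S] [IsDomain S] (φ : R →+* S)
    (l : List R) (h : φ l.prod ≠ 0) : ∀ a ∈ l, φ a ≠ 0 := by
  induction l with
  | nil => intro a ha; exact absurd ha (List.not_mem_nil)
  | cons b l ih =>
    rw [List.prod_cons, map_mul] at h
    intro a ha
    rcases List.mem_cons.1 ha with rfl | ha
    · exact left_ne_zero_of_mul h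
    · exact ih (right_ne_zero_of_mul h) a ha

theorem st_LOC (z1 : ST_Z1) (z2a : ST_Z2A) (z2b : ST_Z2B) (z3 : ST_Z3) (z4 : ST_Z4) :
    ST_LOC := by
  classical
  intro d A hSA hCov Z hZ
  obtain ⟨G, hG⟩ := hSA
  obtain ⟨H, P, c, hH, hZH, hPp, hcP, ha, hb, hform⟩ := z1 d (frontier A) hCov Z hZ
  haveI := hPp
  set Q : MvPolynomial (Fin d) KK := (G.filter (fun g => g ≠ 0)).prod with hQdef
  have hQ0 : Q ≠ 0 := by
    rw [hQdef]
    apply List.prod_ne_zero
    intro h0
    rw [List.mem_filter] at h0
    simp at h0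
  have hQP : Q ∈ P := by
    by_contra hQP
    obtain ⟨x, hxB, _, _, hxQ⟩ := hb Q hQP
    refine loc_front ?_ hxB
    have hne := loc_prod_ne (MvPolynomial.aeval x : MvPolynomial (Fin d) KK →ₐ[KK] ℝ).toRingHom
      (G.filter (fun g => g ≠ 0)) hxQ
    have hev : ∀ᶠ y in 𝓝 x, ∀ g ∈ G, SignType.sign (MvPolynomial.aeval y g) =
        SignType.sign (MvPolynomial.aeval x g) := by
      apply loc_forall_list
      intro g hg
      by_cases hg0 : g = 0
      · subst hg0
        exact Eventually.of_forall fun y => by simp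
      · apply loc_sign
        exact hne g (List.mem_filter.2 ⟨hg, by simpa using hg0⟩)
    filter_upwards [hev] with y hy
    exact hG y x hy
  obtain ⟨J, ⟨D⟩⟩ := z2a d P hPp
  have hJ : ∃ l, l ∉ J := by
    by_contra hJ
    push_neg at hJ
    set s : MvPolynomial J KK := MvPolynomial.rename (fun i : Fin d => (⟨i, hJ i⟩ : J)) Q with hs
    have h1 : MvPolynomial.rename (fun j : J => (j : Fin d)) s = Q := by
      rw [hs, MvPolynomial.rename_rename]
      have : ((fun j : J => (j : Fin d)) ∘ fun i : Fin d => (⟨i, hJ i⟩ : J)) = id := by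
        funext i
        rfl
      rw [this, MvPolynomial.rename_id]
      rfl
    have h2 : s ≠ 0 := by
      intro h
      rw [h, map_zero] at h1
      exact hQ0 h1.symm
    apply D.indep s h2
    rw [h1]
    exact hQP
  obtain ⟨l, hl⟩ := hJ
  obtain ⟨h, hhP, hloc⟩ := z2b d P hPp J ⟨D⟩
  set R : MvPolynomial (Fin d) KK := (G.filter (fun g => g ∉ P)).prod with hR
  have hRP : R ∉ P := by
    apply loc_list_prod_notin
    intro a ha'
    rw [List.mem_filter] at ha'
    simpa using ha'.2
  have hhR : h * R ∉ P := by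
    intro h1
    rcases hPp.mem_or_mem h1 with h2 | h2
    · exact hhP h2
    · exact hRP h2
  obtain ⟨w, hwB, hwH, hwc, hwh⟩ := hb (h * R) hhR
  rw [map_mul] at hwh
  have hwh1 : MvPolynomial.aeval w h ≠ 0 := left_ne_zero_of_mul hwh
  have hwR : MvPolynomial.aeval w R ≠ 0 := right_ne_zero_of_mul hwh
  have hwG := loc_prod_ne (MvPolynomial.aeval w : MvPolynomial (Fin d) KK →ₐ[KK] ℝ).toRingHom
    (G.filter (fun g => g ∉ P)) hwR
  have hwV : ∀ g ∈ P, MvPolynomial.aeval w g = 0 := fun g hg => ha g hg w hwB hwH hwc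
  obtain ⟨F, hF⟩ := hloc w hwV hwh1
  refine ⟨w, fun z hz => hwH z (hZH z hz), J, l, F, hl, hF.smooth, hF.fix, hF.dep, hF.idJ,
    z3 d P J w F hF hform l hl, ?_⟩
  apply z4 d A w J l F hl
  · have h1 := hF.smooth.eventually (by decide)
    filter_upwards [h1] with x hx
    exact hx.continuousAt
  · exact hF.fix
  · exact hF.dep
  · exact hF.idJ
  · exact hwB
  · have e1 : ∀ᶠ x in 𝓝 w, ∀ h' ∈ H, kev h' x ≠ 0 := by
      apply loc_forall_list
      intro a ha'
      exact (loc_cont_kev a).continuousAt.eventually_ne (hwH a ha')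
    have e2 : ∀ᶠ x in 𝓝 w, MvPolynomial.aeval x c ≠ 0 :=
      (loc_cont_aeval c).continuousAt.eventually_ne hwc
    filter_upwards [e1, e2, hF.zero] with x hx1 hx2 hx3 hxB
    exact hx3.1 fun g hg => ha g hg x hxB hx1 hx2
  · have e1 : ∀ᶠ x in 𝓝 w, ∀ g ∈ G, g ∉ P → SignType.sign (MvPolynomial.aeval x g) =
        SignType.sign (MvPolynomial.aeval w g) := by
      apply loc_forall_list
      intro g hg
      by_cases hgP : g ∈ P
      · exact Eventually.of_forall fun y h1 => absurd hgP h1
      · have := loc_sign g w (hwG g (List.mem_filter.2 ⟨hg, by simpa using hgP⟩))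
        filter_upwards [this] with y hy _
        exact hy
    filter_upwards [e1, hF.zero] with x hx1 hx3 hxF
    apply hG
    intro g hg
    by_cases hgP : g ∈ P
    · rw [hx3.2 hxF g hgP, hwV g hgP]
    · exact hx1 g hg hgP

end Pool.Agent.Helper54.DI
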